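import Pool.Agent.Helper42.PP.Goals1

set_option autoImplicit false

namespace Pool.Agent.Helper86.PP

open Module Pool.Agent.Helper42.PP Pool.Agent.Helper51.RP

section abstract

variable {p : ℕ} [Fact p.Prime] {A : Type} [CommGroup A]

/-- evaluation -/
def evl (W : Submodule (ZMod p) (A → ZMod p)) (x : A) : Dual (ZMod p) W where
  toFun g := (g : A → ZMod p) x
  map_add' _ _ := rfl
  map_smul' _ _ := rfl

/-- evaluation, as a homomorphism -/
def evh (W : Submodule (ZMod p) (A → ZMod p)) (hh : ∀ g ∈ W, ∀ x y, g (x * y) = g x + g y) :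
    Additive A →+ Dual (ZMod p) W where
  toFun x := evl W x.toMul
  map_zero' := by
    ext g
    have h := hh g g.2 1 1
    rw [mul_one] at h
    have h2 : (g : A → ZMod p) 1 = 0 := by
      have h3 : (g : A → ZMod p) 1 + 0 = (g : A → ZMod p) 1 + (g : A → ZMod p) 1 := by
        rw [add_zero]
        exact h
      exact (add_left_cancel h3).symm
    exact h2
  map_add' x y := by
    ext g
    exact hh g g.2 x.toMul y.toMul

theorem abs (W : Submodule (ZMod p) (A → ZMod p))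
    (hh : ∀ g ∈ W, ∀ x y, g (x * y) = g x + g y) [FiniteDimensional (ZMod p) W]
    (T : Subgroup A) :
    (∃ (s : ℕ) (u : Fin s → A) (rho : Fin s → A → ZMod p), (∀ i, u i ∈ T) ∧
      (∀ i, rho i ∈ W) ∧ (∀ i j, rho i (u j) = if i = j then 1 else 0) ∧
      ∀ x ∈ T, (∀ i, rho i x = 0) → ∀ g ∈ W, g x = 0) ∧
    ∃ (t : ℕ) (ch : Fin t → A → ZMod p), (∀ j, ch j ∈ W) ∧ (∀ j, ∀ x ∈ T, ch j x = 0) ∧
      (∀ c : Fin t → ZMod p, (∀ x, ∑ j, c j * ch j x = 0) → c = 0) ∧
      ∀ a : A, (∀ j, ch j a = 0) → ∃ x ∈ T, ∀ g ∈ W, g (a * x) = 0 := by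
  let E := evh W hh
  let D : Submodule (ZMod p) (Dual (ZMod p) W) :=
    AddSubgroup.toZModSubmodule p (T.toAddSubgroup.map E)
  have hD : ∀ e : Dual (ZMod p) W, e ∈ D ↔ ∃ x ∈ T, evl W x = e := by
    intro e
    constructor
    · rintro ⟨x, hx, rfl⟩
      exact ⟨x.toMul, hx, rfl⟩
    · rintro ⟨x, hx, rfl⟩
      exact ⟨Additive.ofMul x, hx, rfl⟩
  constructor
  · let b := finBasis (ZMod p) D
    have hu : ∀ i, ∃ x ∈ T, evl W x = (b i : Dual (ZMod p) W) := fun i => (hD _).1 (b i).2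
    choose u hu1 hu2 using hu
    have hg : ∀ i, ∃ g : Dual (ZMod p) W →ₗ[ZMod p] ZMod p, g ∘ₗ D.subtype = b.coord i :=
      fun i => LinearMap.exists_extend _
    choose g hg using hg
    let r : Fin (finrank (ZMod p) D) → W := fun i => (evalEquiv (ZMod p) W).symm (g i)
    have hr : ∀ i (e : Dual (ZMod p) W), e (r i) = g i e := fun i e =>
      apply_evalEquiv_symm_apply (ZMod p) W e (g i)
    refine ⟨finrank (ZMod p) D, u, fun i => (r i : A → ZMod p), hu1, fun i => (r i).2, ?_, ?_⟩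
    · intro i j
      have h1 : (fun i => (r i : A → ZMod p)) i (u j) = evl W (u j) (r i) := rfl
      rw [h1, hr, hu2]
      have h2 : g i (b j : Dual (ZMod p) W) = b.coord i (b j) := by
        rw [← hg i]
        rfl
      rw [h2, Basis.coord_apply, Basis.repr_self, Finsupp.single_apply]
      simp only [eq_comm]
    · intro x hx h0 f hf
      have hxD : evl W x ∈ D := (hD _).2 ⟨x, hx, rfl⟩
      have h3 : (⟨evl W x, hxD⟩ : D) = 0 := by
        apply b.repr.injective
        rw [map_zero]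
        ext i
        have h4 : b.coord i ⟨evl W x, hxD⟩ = g i (evl W x) := by
          rw [← hg i]
          rfl
        rw [← Basis.coord_apply, h4, ← hr]
        exact h0 i
      have h5 : evl W x = 0 := congrArg Subtype.val h3
      exact LinearMap.congr_fun h5 ⟨f, hf⟩
  · let C := D.dualCoannihilator
    let b := finBasis (ZMod p) C
    have hC : ∀ w : W, w ∈ C → ∀ x ∈ T, (w : A → ZMod p) x = 0 := by
      intro w hw x hx
      exact (Submodule.mem_dualCoannihilator _).1 hw (evl W x) ((hD _).2 ⟨x, hx, rfl⟩)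
    refine ⟨finrank (ZMod p) C, fun j => ((b j : W) : A → ZMod p), fun j => (b j : W).2,
      fun j x hx => hC (b j) (b j).2 x hx, ?_, ?_⟩
    · intro c hc
      have h1 : ∑ j, c j • b j = 0 := by
        apply Subtype.ext
        apply Subtype.ext
        ext x
        have h2 := hc x
        simpa using h2
      have h3 := linearIndependent_iff'.1 b.linearIndependent Finset.univ c h1
      funext j
      exact h3 j (Finset.mem_univ j)
    · intro a ha
      have h1 : evl W a ∈ C.dualAnnihilator := by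
        rw [Submodule.mem_dualAnnihilator]
        intro w hw
        have h2 : w = ((∑ j, b.repr ⟨w, hw⟩ j • b j : C) : W) := by
          rw [b.sum_repr]
        rw [h2, Submodule.coe_sum, map_sum]
        apply Finset.sum_eq_zero
        intro j _
        rw [Submodule.coe_smul, map_smul]
        have h3 : evl W a (b j : W) = 0 := ha j
        rw [h3, smul_zero]
      rw [Subspace.dualCoannihilator_dualAnnihilator_eq] at h1
      obtain ⟨x, hx, hxa⟩ := (hD _).1 h1
      refine ⟨x⁻¹, T.inv_mem hx, ?_⟩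
      intro f hf
      have h4 : f x = f a := LinearMap.congr_fun hxa ⟨f, hf⟩
      have h5 := hh f hf (a * x⁻¹) x
      rw [inv_mul_cancel_right, h4] at h5
      have h6 : 0 + f a = f (a * x⁻¹) + f a := by
        rw [zero_add]
        exact h5
      exact (add_right_cancel h6).symm

/-- enough homomorphisms, module form -/
theorem sepM {V : Type} [AddCommGroup V] [Module (ZMod p) V] (v : V) (hv : v ≠ 0) :
    ∃ f : V →+ ZMod p, f v ≠ 0 := by
  by_contra hcon
  push Not at hcon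
  exact hv ((forall_dual_apply_eq_zero_iff (ZMod p) v).1 fun φ => hcon φ.toAddMonoidHom)

/-- enough homomorphisms, additive form -/
theorem sepV {V : Type} [AddCommGroup V] (h0 : ∀ v : V, p • v = 0) (v : V) (hv : v ≠ 0) :
    ∃ f : V →+ ZMod p, f v ≠ 0 :=
  @sepM p _ V _ (AddCommGroup.zmodModule h0) v hv

/-- enough homomorphisms -/
theorem sep (G : Subgroup A) (hp : ∀ x : A, x ^ p ∈ G) (x : A) (hx : x ∉ G) :
    ∃ f : A → ZMod p, (∀ a b, f (a * b) = f a + f b) ∧ (∀ y ∈ G, f y = 0) ∧ f x ≠ 0 := by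
  have h0 : ∀ v : Additive (A ⧸ G), p • v = 0 := by
    intro v
    obtain ⟨a, ha⟩ := QuotientGroup.mk_surjective v.toMul
    have h1 : v.toMul ^ p = 1 := by
      rw [← ha, ← QuotientGroup.mk_pow, QuotientGroup.eq_one_iff]
      exact hp a
    exact h1
  have hne : (Additive.ofMul (x : A ⧸ G)) ≠ 0 := by
    intro h
    have h1 : (x : A ⧸ G) = 1 := h
    exact hx ((QuotientGroup.eq_one_iff x).1 h1)
  obtain ⟨φ, hφ⟩ := sepV (p := p) h0 _ hne
  refine ⟨fun a => φ (Additive.ofMul (a : A ⧸ G)), ?_, ?_, hφ⟩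
  · intro a b
    exact map_add φ (Additive.ofMul (a : A ⧸ G)) (Additive.ofMul (b : A ⧸ G))
  · intro y hy
    have h1 : (y : A ⧸ G) = 1 := (QuotientGroup.eq_one_iff y).2 hy
    show φ (Additive.ofMul (y : A ⧸ G)) = 0
    rw [h1, ofMul_one, map_zero]

/-- functions trivial on a subgroup of finite index -/
theorem fin_dim (W : Submodule (ZMod p) (A → ZMod p))
    (hh : ∀ g ∈ W, ∀ x y, g (x * y) = g x + g y) (G : Subgroup A) [G.FiniteIndex]
    (hG : ∀ g ∈ W, ∀ x ∈ G, g x = 0) : FiniteDimensional (ZMod p) W := by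
  have : Finite (A ⧸ G) := Subgroup.finite_quotient_of_finiteIndex
  let F : W →ₗ[ZMod p] ((A ⧸ G) → ZMod p) :=
    { toFun := fun g q => (g : A → ZMod p) q.out
      map_add' := fun _ _ => rfl
      map_smul' := fun _ _ => rfl }
  refine FiniteDimensional.of_injective F ?_
  intro g g' h
  apply Subtype.ext
  funext x
  have key : ∀ f : W, (f : A → ZMod p) x = (f : A → ZMod p) ((x : A ⧸ G).out) := by
    intro f
    have h1 : ((x : A ⧸ G).out)⁻¹ * x ∈ G := by
      rw [← QuotientGroup.eq]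
      exact Quotient.out_eq' _
    have h2 := hh f f.2 ((x : A ⧸ G).out) (((x : A ⧸ G).out)⁻¹ * x)
    rw [mul_inv_cancel_left, hG f f.2 _ h1, add_zero] at h2
    exact h2
  rw [key g, key g']
  exact congrFun h (x : A ⧸ G)

end abstract

/-- the functionals -/
def WG (p : ℕ) [Fact p.Prime] (K : Type) {K₁ : Type} [Field K] [Field K₁] [Algebra K K₁]
    (ε : K₁) (G : Subgroup K₁ˣ) : Submodule (ZMod p) (K₁ˣ → ZMod p) where
  carrier := {g | IsOm p K ε g ∧ ∀ x ∈ G, g x = 0}
  add_mem' := by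
    rintro a b ⟨⟨ha, ha'⟩, ha2⟩ ⟨⟨hb, hb'⟩, hb2⟩
    refine ⟨⟨?_, ?_⟩, ?_⟩
    · intro x y
      rw [Pi.add_apply, Pi.add_apply, Pi.add_apply, ha, hb]
      ring
    · intro σ n hn x
      rw [Pi.add_apply, Pi.add_apply, ha' σ n hn, hb' σ n hn]
      ring
    · intro x hx
      rw [Pi.add_apply, ha2 x hx, hb2 x hx, add_zero]
  zero_mem' := by
    refine ⟨⟨?_, ?_⟩, ?_⟩
    · intro x y
      simp
    · intro σ n hn x
      simp
    · intro x hx
      rfl
  smul_mem' := by
    rintro c a ⟨⟨ha, ha'⟩, ha2⟩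
    refine ⟨⟨?_, ?_⟩, ?_⟩
    · intro x y
      rw [Pi.smul_apply, Pi.smul_apply, Pi.smul_apply, ha, smul_add]
    · intro σ n hn x
      rw [Pi.smul_apply, Pi.smul_apply, ha' σ n hn, smul_eq_mul, smul_eq_mul]
      ring
    · intro x hx
      rw [Pi.smul_apply, ha2 x hx, smul_zero]

/-- PP-B-PWSP -/
theorem p_wsp (h1 : P_OMG) : P_WSP := by
  intro p _ K K₁ _ _ _ _ _ _ ε hε hσ hcop G U hfi hpw hGs hUs hUG
  obtain ⟨o1, o2, o3, _, o5⟩ := h1 p K K₁ ε hε hσ hcop
  have hhom : ∀ g ∈ WG p K ε G, ∀ x y, g (x * y) = g x + g y := fun g hg => hg.1.1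
  have : G.FiniteIndex := hfi
  have : FiniteDimensional (ZMod p) (WG p K ε G) :=
    fin_dim (WG p K ε G) hhom G fun g hg => hg.2
  -- separation
  have hsep : ∀ a : K₁ˣ, OmType p K ε (a : K₁) → (∀ g ∈ WG p K ε G, g a = 0) → a ∈ G := by
    intro a ha h0
    by_contra hna
    obtain ⟨f, f1, f2, f3⟩ := sep (p := p) G (fun x => hpw _ ⟨x, rfl⟩) a hna
    obtain ⟨w1, w2⟩ := o1 f f1
    have hw : wf p K ε f ∈ WG p K ε G := by
      refine ⟨w1, fun x hx => ?_⟩
      unfold wf
      apply Finset.sum_eq_zero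
      intro σ _
      rw [f2 _ (hGs σ x hx), mul_zero]
    have h2 := h0 _ hw
    rw [w2 a ha] at h2
    rcases mul_eq_zero.1 h2 with h3 | h3
    · rw [ZMod.natCast_eq_zero_iff] at h3
      have h4 : p ∣ 1 := by
        rw [← Nat.Coprime.gcd_eq_one hcop]
        exact Nat.dvd_gcd h3 dvd_rfl
      exact (Fact.out : p.Prime).one_lt.ne' (Nat.dvd_one.1 h4)
    · exact f3 h3
  -- the elements of type `ω` of `U`
  let T : Subgroup K₁ˣ :=
    { carrier := {x | x ∈ U ∧ OmType p K ε (x : K₁)}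
      mul_mem' := fun {x y} hx hy => ⟨U.mul_mem hx.1 hy.1, (o5 x y hx.2 hy.2).1⟩
      one_mem' := by
        refine ⟨U.one_mem, ?_⟩
        obtain ⟨a, ha, _⟩ := o3 1
        have h2 := (o5 a a ha ha).2
        have h3 := (o5 a a⁻¹ ha h2).1
        rw [mul_inv_cancel] at h3
        exact h3
      inv_mem' := fun {x} hx => ⟨U.inv_mem hx.1, (o5 x x hx.2 hx.2).2⟩ }
  obtain ⟨⟨s, u, rho, a1, a2, a3, a4⟩, ⟨t, ch, b1, b2, b3, b4⟩⟩ :=
    abs (WG p K ε G) hhom T
  refine ⟨⟨s, u, rho, fun i => a1 i, fun i => (a2 i).1, fun i x hx => (a2 i).2 x hx, a3,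
    fun x hxU hxO h0 => hUG x hxU (hsep x hxO (a4 x ⟨hxU, hxO⟩ h0))⟩,
    ⟨t, ch, fun j => (b1 j).1, fun j x hx => (b1 j).2 x hx, ?_, b3, ?_⟩⟩
  · intro j x hx
    obtain ⟨a, ha, hga, hG'⟩ := o3 x
    have haU : a ∈ U := (hG' U hUs).1 hx
    rw [← hga (ch j) (b1 j).1]
    exact b2 j a ⟨haU, ha⟩
  · intro a ha h0
    obtain ⟨x, hx, hxa⟩ := b4 a h0
    exact ⟨x, hx.1, hx.2, hsep (a * x) (o5 a x ha hx.2).1 hxa⟩

end Pool.Agent.Helper86.PP
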