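import Pool.Agent.Helper88.PP.Goals

/-!
Packet RA of MP_69be96_nt: the part of large cost in the ideal model.
-/

open Finset
open scoped Classical

namespace Pool.Agent.Helper86.PP

open Pool.Agent.Helper88.PP

theorem ra : StmtRA := by
  intro ι _ _ S e w M m h0 he hw hmM
  set Ω : Finset (ι → ℕ) := Fintype.piFinset (fun _ : ι => insert 0 S) with hΩ
  set cost : (ι → ℕ) → ℕ := fun r => ∑ i, (if r i = 0 then 0 else e (r i)) with hcost
  set P : (ι → ℕ) → ℝ := fun r => ∏ i, (if r i = 0 then 1 else w (r i)) with hP
  have hPnn : ∀ r, 0 ≤ P r := by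
    intro r
    refine Finset.prod_nonneg fun i _ => ?_
    split_ifs
    · exact zero_le_one
    · exact hw _
  set B : Finset (ι → ℕ) := Ω.filter (fun r => cost r ≤ M) with hB
  set A : Finset (ι → ℕ) := Ω.filter (fun r => cost r ≤ M ∧ M < cost r + m) with hA
  show ((M : ℝ) - m) * ∑ r ∈ A, P r ≤
    (Fintype.card ι : ℝ) * (∑ r ∈ S, (e r : ℝ) * w r) * ∑ r ∈ B, P r
  have hAB : A ⊆ B := by
    intro r hr
    rw [hA, Finset.mem_filter] at hr
    rw [hB, Finset.mem_filter]
    exact ⟨hr.1, hr.2.1⟩
  have h1 : ((M : ℝ) - m) * ∑ r ∈ A, P r ≤ ∑ r ∈ B, (cost r : ℝ) * P r := by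
    rw [Finset.mul_sum]
    calc ∑ r ∈ A, ((M : ℝ) - m) * P r ≤ ∑ r ∈ A, (cost r : ℝ) * P r := by
          refine Finset.sum_le_sum fun r hr => ?_
          refine mul_le_mul_of_nonneg_right ?_ (hPnn r)
          rw [hA, Finset.mem_filter] at hr
          have h2 : (M : ℝ) < (cost r : ℝ) + m := by exact_mod_cast hr.2.2
          linarith
      _ ≤ ∑ r ∈ B, (cost r : ℝ) * P r :=
          Finset.sum_le_sum_of_subset_of_nonneg hAB fun r _ _ =>
            mul_nonneg (Nat.cast_nonneg _) (hPnn r)
  -- the contribution of one index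
  have h2 : ∀ i : ι, ∑ r ∈ B, ((if r i = 0 then 0 else e (r i) : ℕ) : ℝ) * P r ≤
      (∑ s ∈ S, (e s : ℝ) * w s) * ∑ r ∈ B, P r := by
    intro i
    have hsplit : ∀ r : ι → ℕ, r i ≠ 0 → P r = w (r i) * P (Function.update r i 0) := by
      intro r hr
      simp only [hP]
      rw [← Finset.mul_prod_erase Finset.univ _ (Finset.mem_univ i),
        ← Finset.mul_prod_erase Finset.univ (fun j => if Function.update r i 0 j = 0 then (1 : ℝ)
          else w (Function.update r i 0 j)) (Finset.mem_univ i)]
      rw [if_neg hr, Function.update_self, if_pos rfl, one_mul]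
      congr 1
      refine Finset.prod_congr rfl fun j hj => ?_
      rw [Function.update_of_ne (Finset.ne_of_mem_erase hj)]
    have hcle : ∀ r : ι → ℕ, cost (Function.update r i 0) ≤ cost r := by
      intro r
      simp only [hcost]
      refine Finset.sum_le_sum fun j _ => ?_
      by_cases hj : j = i
      · subst hj
        rw [Function.update_self, if_pos rfl]
        exact Nat.zero_le _
      · rw [Function.update_of_ne hj]
    set φ : (ι → ℕ) → ℕ × (ι → ℕ) := fun r => (r i, Function.update r i 0) with hφ
    set g : ℕ × (ι → ℕ) → ℝ := fun y => (e y.1 : ℝ) * w y.1 * P y.2 with hg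
    have hinj : Function.Injective φ := by
      intro r r' hrr
      have e1 : r i = r' i := congrArg Prod.fst hrr
      have e2 : Function.update r i 0 = Function.update r' i 0 := congrArg Prod.snd hrr
      funext j
      by_cases hj : j = i
      · rw [hj]; exact e1
      · have := congrFun e2 j
        rwa [Function.update_of_ne hj, Function.update_of_ne hj] at this
    calc ∑ r ∈ B, ((if r i = 0 then 0 else e (r i) : ℕ) : ℝ) * P r
        = ∑ r ∈ B.filter (fun r => r i ≠ 0), ((if r i = 0 then 0 else e (r i) : ℕ) : ℝ) * P r := by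
          symm
          refine Finset.sum_filter_of_ne fun r _ hne h => hne ?_
          rw [if_pos h]
          simp
      _ = ∑ r ∈ B.filter (fun r => r i ≠ 0), g (φ r) := by
          refine Finset.sum_congr rfl fun r hr => ?_
          have hr0 : r i ≠ 0 := (Finset.mem_filter.1 hr).2
          simp only [hg, hφ]
          rw [if_neg hr0, hsplit r hr0]
          ring
      _ = ∑ y ∈ (B.filter (fun r => r i ≠ 0)).image φ, g y := by
          rw [Finset.sum_image (fun a _ b _ h => hinj h)]
      _ ≤ ∑ y ∈ S ×ˢ B, g y := by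
          refine Finset.sum_le_sum_of_subset_of_nonneg ?_ fun y _ _ =>
            mul_nonneg (mul_nonneg (Nat.cast_nonneg _) (hw _)) (hPnn _)
          intro y hy
          rw [Finset.mem_image] at hy
          obtain ⟨r, hr, rfl⟩ := hy
          rw [Finset.mem_filter] at hr
          obtain ⟨hrB, hr0⟩ := hr
          rw [hB, Finset.mem_filter, hΩ, Fintype.mem_piFinset] at hrB
          rw [Finset.mem_product]
          refine ⟨?_, ?_⟩
          · have := hrB.1 i
            rw [Finset.mem_insert] at this
            exact this.resolve_left hr0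
          · show Function.update r i 0 ∈ B
            rw [hB, Finset.mem_filter, hΩ, Fintype.mem_piFinset]
            refine ⟨fun j => ?_, (hcle r).trans hrB.2⟩
            by_cases hj : j = i
            · rw [hj, Function.update_self]
              exact Finset.mem_insert_self _ _
            · rw [Function.update_of_ne hj]
              exact hrB.1 j
      _ = (∑ s ∈ S, (e s : ℝ) * w s) * ∑ r ∈ B, P r := by
          rw [Finset.sum_product, Finset.sum_mul_sum]
  refine h1.trans ?_
  calc ∑ r ∈ B, (cost r : ℝ) * P r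
      = ∑ r ∈ B, ∑ i, ((if r i = 0 then 0 else e (r i) : ℕ) : ℝ) * P r := by
        refine Finset.sum_congr rfl fun r _ => ?_
        rw [← Finset.sum_mul]
        congr 1
        simp only [hcost]
        rw [Nat.cast_sum]
    _ = ∑ i, ∑ r ∈ B, ((if r i = 0 then 0 else e (r i) : ℕ) : ℝ) * P r := Finset.sum_comm
    _ ≤ ∑ _i : ι, (∑ s ∈ S, (e s : ℝ) * w s) * ∑ r ∈ B, P r :=
        Finset.sum_le_sum fun i _ => h2 i
    _ = (Fintype.card ι : ℝ) * (∑ r ∈ S, (e r : ℝ) * w r) * ∑ r ∈ B, P r := by
        rw [Finset.sum_const, nsmul_eq_mul, Finset.card_univ]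
        ring

end Pool.Agent.Helper86.PP
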